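import Pool.Agent.H7.MQN.Wt
import Pool.Agent.H7.MPN.Gen
import Pool.Agent.H72.MQ.Cex
import Pool.Agent.H72.MP.Mod.A1

/-!
Negative half of MP_657af9_ag: a class in the cohomology of the direct image.
-/

open CategoryTheory Limits AlgebraicGeometry TopologicalSpace Opposite Pretriangulated

namespace Pool.Agent.H72.MQ

open Tw

attribute [local instance] secModule

noncomputable section

section cov

variable {E : Env} {X Y : Scheme.{0}}

/-- Coverings are surjective. -/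
lemma exists_pt_of_cover {U : Tw E X} (S : Sieve U) (hS : S ∈ Tw.topo E X U) (x : U.T) :
    ∃ (V : Tw E X) (g : V ⟶ U) (_ : S g) (v : V.T), g.f v = x := by
  obtain ⟨R, hR, hRS⟩ := mem_topo_iff.1 hS
  obtain ⟨ι, Z, g, rfl⟩ := R.exists_eq_ofArrows
  have hR' : (Presieve.ofArrows Z g).map (forget E X) ∈
    Scheme.proetalePrecoverage U.T := hR
  rw [Presieve.map_ofArrows] at hR'
  have hR2 := Scheme.propQCPrecoverage_le_precoverage _ hR'
  obtain ⟨T, f, hf, v, hv⟩ := (Presieve.mem_comap_jointlySurjectivePrecoverage_iff _).1 hR2.1 x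
  obtain ⟨i⟩ := hf
  exact ⟨Z i, g i, hRS _ _ ⟨i⟩, v, hv⟩

/-- If the base change to `Y` of `U` is non-empty then so is that of an element of
a covering. -/
lemma exists_pull_nonempty (i : Y ⟶ X) {U : Tw E X} (S : Sieve U)
    (hS : S ∈ Tw.topo E X U) (x : ((pull i).obj U : Tw E Y).T) :
    ∃ (V : Tw E X) (g : V ⟶ U) (_ : S g), Nonempty ((pull i).obj V : Tw E Y).T := by
  obtain ⟨V, g, hg, v, hv⟩ := exists_pt_of_cover S hS (pullback.fst U.π i x)
  refine ⟨V, g, hg, ?_⟩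
  have h1 : V.π v = i (pullback.snd U.π i x) := by
    have h2 : V.π v = U.π (g.f v) := by
      rw [← Scheme.Hom.comp_apply, g.w]
    rw [h2, hv, ← Scheme.Hom.comp_apply, ← Scheme.Hom.comp_apply, pullback.condition]
  obtain ⟨z, -, -⟩ := Scheme.Pullback.exists_preimage_pullback v (pullback.snd U.π i x) h1
  exact ⟨z⟩

end cov

section gpt

variable (p : ℕ) [Fact p.Prime] (ℓ : ℕ) [Fact ℓ.Prime]

lemma kb_sep : Algebra.IsSeparable (ZMod p) (MP.kb p) := by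
  have : Algebra.IsAlgebraic (ZMod p) (MP.kb p) := MP.kb_isAlgebraic p
  exact (inferInstance : Algebra.IsSeparable (ZMod p) (MP.kb p))

/-- The geometric point. -/
def ptY : Spec (.of (kb p)) ⟶ YY p :=
  Spec.map (CommRingCat.ofHom (algebraMap (ZMod p) (MP.kb p)))

lemma ptY_we : WeaklyEtale (ptY p) := by
  have := kb_sep p
  exact MP.weaklyEtale_of_isSeparable (ZMod p) (MP.kb p)

/-- Automorphisms of the residue field fix the geometric point. -/
lemma spec_w (τ : CommRingCat.of (kb p) ⟶ CommRingCat.of (kb p)) :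
    Spec.map τ ≫ ptY p = ptY p := by
  refine (Spec.map_comp _ _).symm.trans ?_
  unfold ptY
  congr 1
  ext1
  exact RingHom.ext_zmod _ _

/-- The geometric point of the spectrum of the prime field. -/
def gptη : GPt (Eη p ℓ) (ZMod p) where
  z := ptY p
  we := ptY_we p
  cov R hR := by
    have : IsAlgClosed (MP.kb p) := MP.kb_isAlgClosed p
    exact MP.exists_section_of_cover (MP.kb p) R hR
  inv g := spec_w p _

end gpt

section main

variable {p ℓ : ℕ} [Fact p.Prime] [Fact ℓ.Prime] (κ : Kum p ℓ) {X Y : Scheme.{0}}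

/-- The sections of `E`. -/
abbrev eSec (U : Tw (Eη p ℓ) Y)
    (a b : (Rs (Eη p ℓ) Y).obj.obj (op U)) : (EE κ Y).val.obj (op U) := (a, b)

lemma eSec_rst {U V : Tw (Eη p ℓ) Y} (u : V ⟶ U)
    (a b : (Rs (Eη p ℓ) Y).obj.obj (op U)) :
    rst (EE κ Y).val u (eSec κ U a b) = eSec κ V
      ((Rs (Eη p ℓ) Y).obj.map u.op a -
        tauF (kumC κ) u.c * (Rs (Eη p ℓ) Y).obj.map u.op b)
      (chiF (cInv p ℓ) (cInv_continuous p ℓ) (u.c)⁻¹ *
        (Rs (Eη p ℓ) Y).obj.map u.op b) := rfl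

lemma dI_apply (i : Y ⟶ X) (U : Tw (Eη p ℓ) X)
    (a : (Rs (Eη p ℓ) X).obj.obj (op U)) :
    (dI κ i).val.app (op U) a = eSec κ ((pull i).obj U)
      ((rpull i).app (op U) a) 0 := rfl

lemma not_local (i : Y ⟶ X) (W : Tw (Eη p ℓ) X)
    (x : ((pull i).obj W : Tw (Eη p ℓ) Y).T)
    (S : Sieve W) (hS : S ∈ Tw.topo (Eη p ℓ) X W)
    (h : ∀ (V : Tw (Eη p ℓ) X) (g : V ⟶ W), S g →
      ∃ a : (OE p ℓ X).val.obj (op V), (dI κ i).val.app (op V) a =
        ((push (Eη p ℓ) i).obj (EE κ Y)).val.map g.op (eSec κ ((pull i).obj W) 0 1)) : False := by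
  obtain ⟨V, g, hg, ⟨t⟩⟩ := exists_pull_nonempty i S hS x
  obtain ⟨a, ha⟩ := h V g hg
  have h1 : eSec κ ((pull i).obj V) ((rpull i).app (op V) a) 0 =
    rst (EE κ Y).val ((pull i).map g) (eSec κ ((pull i).obj W) 0 1) := ha
  rw [eSec_rst] at h1
  have h2 : (0 : (Rs (Eη p ℓ) Y).obj.obj (op ((pull i).obj V))) =
    chiF (cInv p ℓ) (cInv_continuous p ℓ) (((pull i).map g).c)⁻¹ *
      (Rs (Eη p ℓ) Y).obj.map ((pull i).map g).op 1 := congrArg Prod.snd h1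
  rw [map_one, mul_one] at h2
  have h3 := chiF_mul_inv (cInv p ℓ) (cInv_continuous p ℓ) (((pull i).map g).c)
  rw [← h2, mul_zero] at h3
  have h4 := congrArg (fun q : (Rs (Eη p ℓ) Y).obj.obj
    (op ((pull i).obj V)) => (show ULift.{1} C(_, ℚ_[ℓ]) from q).down t) h3
  exact zero_ne_one (α := ℚ_[ℓ]) h4

variable (p ℓ) in
/-- The point. -/
abbrev ptg : Tw (Eη p ℓ) (YY p) := (gptη p ℓ).pt

/-- The endomorphisms of the point. -/
abbrev gEη (g : (Eη p ℓ).G) : ptg p ℓ ⟶ ptg p ℓ := (gptη p ℓ).gE g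

lemma pt_w (i : YY p ⟶ X) (f : X ⟶ YY p) (h : i ≫ f = 𝟙 _) :
    𝟙 _ ≫ ptY p = (ptY p ≫ i) ≫ f := by
  rw [Category.assoc, h, Category.id_comp, Category.comp_id]

/-- The geometric point over the given rational point. -/
lemma exists_pt (i : YY p ⟶ X) (f : X ⟶ YY p) (h : i ≫ f = 𝟙 _) :
    Nonempty ((pull i).obj ((pull f).obj (ptg p ℓ)) : Tw (Eη p ℓ) (YY p)).T := by
  let a : Spec (.of (kb p)) ⟶ pullback (ptY p) f :=
    pullback.lift (𝟙 _) (ptY p ≫ i) (pt_w i f h)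
  let b : Spec (.of (kb p)) ⟶ pullback (pullback.snd (ptY p) f) i :=
    pullback.lift a (ptY p) (pullback.lift_snd _ _ _)
  exact ⟨b (IsLocalRing.closedPoint (kb p) : PrimeSpectrum (kb p))⟩

lemma e2_rst (i : YY p ⟶ X) (f : X ⟶ YY p) (g : (Eη p ℓ).G) :
    rst (EE κ (YY p)).val ((pull i).map ((pull f).map (gEη g)))
      (eSec κ ((pull i).obj ((pull f).obj (ptg p ℓ))) 0 1) =
    eSec κ ((pull i).obj ((pull f).obj (ptg p ℓ))) (- (qc (Eη p ℓ) _).c _ (kumC κ g))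
      ((qc (Eη p ℓ) _).c _ (((cInv p ℓ g)⁻¹ : ℚ_[(Eη p ℓ).ℓ]ˣ) : ℚ_[(Eη p ℓ).ℓ])) := by
  rw [eSec_rst, map_zero, map_one, mul_one, mul_one, zero_sub]
  refine Prod.ext ?_ ?_
  · change - tauF _ _ = - _
    congr 1
  · change chiF (cInv p ℓ) (cInv_continuous p ℓ) _ = _
    refine ULift.down_injective (ContinuousMap.ext fun t => ?_)
    change ((cInv p ℓ g⁻¹ : ℚ_[(Eη p ℓ).ℓ]ˣ) : ℚ_[(Eη p ℓ).ℓ]) =
      (((cInv p ℓ g)⁻¹ : ℚ_[(Eη p ℓ).ℓ]ˣ) : ℚ_[(Eη p ℓ).ℓ])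
    rw [map_inv]

/-- The class of the second basis vector. -/
theorem class_exists (i : YY p ⟶ X) (f : X ⟶ YY p) (h : i ≫ f = 𝟙 _) :
    ∃ v : ((DerivedCategory.homologyFunctor _ 0).obj (RpushO (Eη p ℓ) f (FF κ i))).val.obj
      (op (ptg p ℓ)),
      v ≠ 0 ∧ ∀ g : (Eη p ℓ).G, rstL _ (gEη g) v =
        (((cInv p ℓ g)⁻¹ : ℚ_[(Eη p ℓ).ℓ]ˣ) : ℚ_[(Eη p ℓ).ℓ]) • v := by
  obtain ⟨I, j, hj, ⟨e⟩⟩ := MP.derived_homology (push (Eη p ℓ) f) (CP κ i) 0
  have hj' : @QuasiIso _ _ _ _ _ (MP.two (dI κ i)) I j _ _ := hj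
  obtain ⟨jm, j0, hjm, hj0, hloc⟩ := MP.local_of_two (dI κ i) I j
  have hw : (push (Eη p ℓ) f).map j0 ≫
      (((push (Eη p ℓ) f).mapHomologicalComplex (ComplexShape.up ℤ)).obj I).d 0 1 = 0 := by
    have h1 : (push (Eη p ℓ) f).map j0 ≫ (push (Eη p ℓ) f).map (I.d 0 1) = 0 := by
      rw [← Functor.map_comp, hj0, Functor.map_zero]
    exact h1
  let α := MP.cls (((push (Eη p ℓ) f).mapHomologicalComplex (ComplexShape.up ℤ)).obj I)
    ((push (Eη p ℓ) f).map j0) hw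
  let e2 : ((push (Eη p ℓ) f).obj ((push (Eη p ℓ) i).obj (EE κ (YY p)))).val.obj
    (op (ptg p ℓ)) := eSec κ ((pull i).obj ((pull f).obj (ptg p ℓ))) 0 1
  let e1 : ((push (Eη p ℓ) f).obj ((push (Eη p ℓ) i).obj (EE κ (YY p)))).val.obj
    (op (ptg p ℓ)) := eSec κ ((pull i).obj ((pull f).obj (ptg p ℓ))) 1 0
  have hα1 : secL α (ptg p ℓ) e1 = 0 := by
    have h2 : (push (Eη p ℓ) f).map (dI κ i) ≫ (push (Eη p ℓ) f).map j0 =
      (push (Eη p ℓ) f).map jm ≫ (((push (Eη p ℓ) f).mapHomologicalComplex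
        (ComplexShape.up ℤ)).obj I).d (-1) 0 := by
      have h4 := congrArg (push (Eη p ℓ) f).map hjm
      rw [Functor.map_comp, Functor.map_comp] at h4
      exact h4.symm
    have h1 : (push (Eη p ℓ) f).map (dI κ i) ≫ α = 0 := by
      have h5 := MP.cls_comp (((push (Eη p ℓ) f).mapHomologicalComplex (ComplexShape.up ℤ)).obj I)
        ((push (Eη p ℓ) f).map (dI κ i)) ((push (Eη p ℓ) f).map j0) hw
      refine h5.trans ?_
      have h6 := MP.cls_d (((push (Eη p ℓ) f).mapHomologicalComplex (ComplexShape.up ℤ)).obj I)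
        ((push (Eη p ℓ) f).map jm)
      refine Eq.trans ?_ h6
      congr 1
    have h6 : secL ((push (Eη p ℓ) f).map (dI κ i)) (ptg p ℓ)
        (1 : (Rs (Eη p ℓ) X).obj.obj (op ((pull f).obj (ptg p ℓ)))) = e1 := by
      refine (dI_apply κ i _ _).trans ?_
      exact congrArg (fun q => eSec κ ((pull i).obj ((pull f).obj (ptg p ℓ))) q 0)
        (map_one ((rpull i).app (op ((pull f).obj (ptg p ℓ)))).hom)
    rw [← h6]
    exact congrArg (fun q => secL q (ptg p ℓ) (1 : (Rs (Eη p ℓ) X).obj.obj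
      (op ((pull f).obj (ptg p ℓ))))) h1
  have hα2 : secL α (ptg p ℓ) e2 ≠ 0 := by
    intro h0
    obtain ⟨S, hS, hS'⟩ := MP.cls_local _ _ hw (ptg p ℓ) e2 h0
    obtain ⟨y, hy⟩ := hS' _ (𝟙 _) ((gptη p ℓ).point_sieve S hS)
    have hy' : (I.d (-1) 0).val.app (op ((pull f).obj (ptg p ℓ))) y =
      j0.val.app (op ((pull f).obj (ptg p ℓ))) e2 := by
      refine hy.trans ?_
      exact rst_id ((push (Eη p ℓ) f).obj (I.X 0)).val _ _
    obtain ⟨T, hT, hT'⟩ := hloc ((pull f).obj (ptg p ℓ)) e2 y hy'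
    refine not_local κ i ((pull f).obj (ptg p ℓ)) ?_ T hT hT'
    exact (exists_pt i f h).some
  refine ⟨secL e.inv (ptg p ℓ) (secL α (ptg p ℓ) e2), ?_, ?_⟩
  · intro h0
    exact hα2 (secL_inj e.inv _ (h0.trans (map_zero _).symm))
  · intro g
    have h1 : rstL _ (gEη g) e2 = (((cInv p ℓ g)⁻¹ : ℚ_[(Eη p ℓ).ℓ]ˣ) : ℚ_[(Eη p ℓ).ℓ]) • e2 -
      (kumC κ g) • e1 := by
      refine (e2_rst κ i f g).trans ?_
      let W : Tw (Eη p ℓ) (YY p) := (pull i).obj ((pull f).obj (ptg p ℓ))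
      let a : (Rs (Eη p ℓ) (YY p)).obj.obj (op W) := (qc (Eη p ℓ) (YY p)).c W (kumC κ g)
      let b : (Rs (Eη p ℓ) (YY p)).obj.obj (op W) := (qc (Eη p ℓ) (YY p)).c W
        (((cInv p ℓ g)⁻¹ : ℚ_[(Eη p ℓ).ℓ]ˣ) : ℚ_[(Eη p ℓ).ℓ])
      have k1 : -a = b * 0 - a * 1 := by rw [mul_zero, mul_one, zero_sub]
      have k2 : b = b * 1 - a * 0 := by rw [mul_zero, mul_one, sub_zero]
      exact Prod.ext k1 k2
    have h2 := (secL_rst α (gEη g) e2).symm
    rw [h1, map_sub, map_smul, map_smul, hα1, smul_zero, sub_zero] at h2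
    have h3 := (secL_rst e.inv (gEη g) (secL α (ptg p ℓ) e2)).symm
    rw [h2, map_smul] at h3
    exact h3

end main

end

end Pool.Agent.H72.MQ
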