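import Pool.Agent.H72.MQ.S6
import Pool.Agent.H72.MP.Mod.G1

/-!
Negative half of MP_657af9_ag: levels of homology.
-/

open CategoryTheory Limits AlgebraicGeometry TopologicalSpace Opposite Pretriangulated

namespace Pool.Agent.H72.MQ

open Tw

noncomputable section

section gen

variable {A : Type 2} [Category.{1} A] [Abelian A] [HasDerivedCategory.{2} A]

lemma homology_zero_ext (n : ℤ) (T : Triangle (DerivedCategory A)) (hT : T ∈ distTriang _)
    (h1 : IsZero ((DerivedCategory.homologyFunctor A n).obj T.obj₁))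
    (h3 : IsZero ((DerivedCategory.homologyFunctor A n).obj T.obj₃)) :
    IsZero ((DerivedCategory.homologyFunctor A n).obj T.obj₂) :=
  (DerivedCategory.HomologySequence.exact₂ T hT n).isZero_of_both_zeros
    (h1.eq_of_src _ _) (h3.eq_of_tgt _ _)

lemma DCl.homology_zero {S : DerivedCategory A → Prop} {n : ℤ}
    (h : ∀ K, S K → IsZero ((DerivedCategory.homologyFunctor A n).obj K)) {K : DerivedCategory A}
    (hK : DCl S K) : IsZero ((DerivedCategory.homologyFunctor A n).obj K) := by
  induction hK with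
  | of hK => exact h _ hK
  | zero hK => exact (DerivedCategory.homologyFunctor A n).map_isZero hK
  | iso e _ ih => exact ih.of_iso ((DerivedCategory.homologyFunctor A n).mapIso e.symm)
  | ext T hT _ _ h1 h3 => exact homology_zero_ext n T hT h1 h3

lemma single_homology_zero (E : A) {j n : ℤ} (h : n ≠ j) :
    IsZero ((DerivedCategory.homologyFunctor A n).obj
      ((DerivedCategory.singleFunctor A j).obj E)) := by
  rcases lt_or_gt_of_ne h with h | h
  · exact DerivedCategory.isZero_of_isGE _ j n h
  · exact DerivedCategory.isZero_of_isLE _ j n h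

lemma derived_isGE {B : Type 2} [Category.{1} B] [Abelian B] [HasDerivedCategory.{2} B] (F : A ⥤ B)
    [F.Additive] [EnoughInjectives A] (K : DerivedCategory.Plus A) (j : ℤ) [K.IsGE j] :
    (F.rightDerivedFunctorPlus.obj K).IsGE j := by
  obtain ⟨L, hL, ⟨e⟩⟩ := DerivedCategory.Plus.exists_injective_nonempty_iso K j
  let e1 := F.rightDerivedFunctorPlus.mapIso e
  let u := F.rightDerivedFunctorPlusUnit.app
      ((HomotopyCategory.Plus.quotient A).obj
        ((InjectiveObject.ι A).mapCochainComplexPlus.obj L))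
  let e2 := asIso u ≪≫ e1
  let M : CochainComplex A ℤ := ((InjectiveObject.ι A).mapCochainComplexPlus.obj L).obj
  have hM : M.IsStrictlyGE j := by
    change CochainComplex.IsStrictlyGE
      (((InjectiveObject.ι A).mapHomologicalComplex (.up ℤ)).obj L.obj) j
    rw [CochainComplex.isStrictlyGE_mapHomologicalComplex_obj_iff]
    exact hL
  have h1 : CochainComplex.IsStrictlyGE ((F.mapHomologicalComplex (.up ℤ)).obj M) j := by
    rw [CochainComplex.isStrictlyGE_iff]
    intro i hi
    exact F.map_isZero (M.isZero_of_isStrictlyGE j i hi)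
  have h2 : (DerivedCategory.Q.obj ((F.mapHomologicalComplex (.up ℤ)).obj M)).IsGE j :=
    inferInstance
  rw [← DerivedCategory.Plus.isGE_ι_obj_iff]
  have e3 := DerivedCategory.Plus.ι.mapIso e2
  have h3 : (DerivedCategory.Plus.ι.obj ((F.mapHomotopyCategoryPlus ⋙ DerivedCategory.Plus.Qh).obj
    ((HomotopyCategory.Plus.quotient A).obj
        ((InjectiveObject.ι A).mapCochainComplexPlus.obj L)))).IsGE j := h2
  exact DerivedCategory.TStructure.t.isGE_of_iso e3 j

/-- The cohomology of an object placed in one degree. -/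
def singleIso (E : A) (n : ℤ) :
    (DerivedCategory.homologyFunctor A n).obj ((DerivedCategory.singleFunctor A n).obj E) ≅ E :=
  (DerivedCategory.homologyFunctorFactors A n).app ((HomologicalComplex.single A _ n).obj E) ≪≫
    (HomologicalComplex.homologyFunctorSingleIso A (ComplexShape.up ℤ) n).app E

end gen

section

variable {E : Env}

lemma PLE_zero {X : Scheme.{0}} {m n : ℤ} {K : D E X}
    (hK : PLE E m K) (hn : m < n) : IsZero ((DerivedCategory.homologyFunctor _ n).obj K) := by
  refine DCl.homology_zero ?_ hK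
  rintro K ⟨Z, i, _, L, M, j, _, _, ⟨d, _, hd⟩, ⟨e⟩⟩
  exact (single_homology_zero M (by omega)).of_iso
    ((DerivedCategory.homologyFunctor _ n).mapIso e)

variable {F : Type} [Field F]

lemma PGE_zero {m n : ℤ} {K : D E (Spec (.of F))}
    (hK : PGE E m K) (hn : n < m) : IsZero ((DerivedCategory.homologyFunctor _ n).obj K) := by
  refine DCl.homology_zero ?_ hK
  rintro K ⟨Z, i, hi, _, L, j, _, ⟨_, d, hd, hm⟩, ⟨e⟩⟩
  have hd0 : d = 0 := by
    have h1 := hd.trans (MP.dim_le_of_immersion_field F Z i)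
    have h2 : ((d : ℕ) : WithBot ℕ∞) ≤ ((0 : ℕ) : WithBot ℕ∞) := by simpa using h1
    have h3 : d ≤ 0 := by exact_mod_cast h2
    omega
  subst hd0
  have hj : n < j := by push_cast at hm; omega
  have h1 := derived_isGE (push E i) ((DerivedCategory.Plus.singleFunctor _ j).obj L) j
  exact (DerivedCategory.Plus.isZero_homology_of_isGE _ j n hj).of_iso
      ((DerivedCategory.homologyFunctor _ n).mapIso e)

/-- On the spectrum of a field the perverse cohomology is the ordinary cohomology. -/
lemma IsCoh.homologyIso {K Q : D E (Spec (.of F))}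
    (h : IsCoh (PLE E) (PGE E) 0 K Q) : Nonempty ((DerivedCategory.homologyFunctor _ 0).obj Q ≅
      (DerivedCategory.homologyFunctor _ 0).obj K) := by
  obtain ⟨T₁, hT₁, T₂, hT₂, ⟨e₁⟩, h1, h2, ⟨e₂⟩, h3, h4, ⟨e₃⟩⟩ := h
  have a1 : IsIso ((DerivedCategory.homologyFunctor _ 0).map T₁.mor₁) := by
    have m1 : Mono ((DerivedCategory.homologyFunctor _ 0).map T₁.mor₁) :=
      (DerivedCategory.HomologySequence.mono_homologyMap_mor₁_iff T₁ hT₁ (-1) 0).2
        ((PGE_zero h2 (by norm_num)).eq_of_src _ _)
    have m2 : Epi ((DerivedCategory.homologyFunctor _ 0).map T₁.mor₁) :=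
      (DerivedCategory.HomologySequence.epi_homologyMap_mor₁_iff T₁ hT₁ 0).2
        ((PGE_zero h2 (by norm_num)).eq_of_tgt _ _)
    exact isIso_of_mono_of_epi _
  have a2 : IsIso ((DerivedCategory.homologyFunctor _ 0).map T₂.mor₂) := by
    have m1 : Mono ((DerivedCategory.homologyFunctor _ 0).map T₂.mor₂) :=
      (DerivedCategory.HomologySequence.mono_homologyMap_mor₂_iff T₂ hT₂ 0).2
        ((PLE_zero h3 (by norm_num)).eq_of_src _ _)
    have m2 : Epi ((DerivedCategory.homologyFunctor _ 0).map T₂.mor₂) :=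
      (DerivedCategory.HomologySequence.epi_homologyMap_mor₂_iff T₂ hT₂ 0 1).2
        ((PLE_zero h3 (by norm_num)).eq_of_tgt _ _)
    exact isIso_of_mono_of_epi _
  let H := DerivedCategory.homologyFunctor (Sh E (Spec (.of F))) 0
  exact ⟨H.mapIso (e₃ ≪≫ (shiftFunctorZero _ ℤ).app T₂.obj₃) ≪≫
    (asIso (H.map T₂.mor₂)).symm ≪≫ H.mapIso e₂ ≪≫ asIso (H.map T₁.mor₁) ≪≫ H.mapIso e₁⟩

end

end

end Pool.Agent.H72.MQ
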