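import Pool.Agent.H7.MQN.Mf

/-!
Negative half of MP_657af9_ag: the logarithm of the monodromy at the point.
-/

open CategoryTheory Limits AlgebraicGeometry TopologicalSpace Opposite Pretriangulated

namespace Pool.Agent.H72.MQ

open Tw

attribute [local instance] secModule

noncomputable section

lemma nilp_aux {k V : Type*} [Field k] [AddCommGroup V] [Module k V] (M : Module.End k V)
    (c : ℕ → k) (h0 : c 0 = 1) (h1 : c 1 ≠ 0) (n : ℕ) (hM : M ^ n = 0) (x : V)
    (hx : (∑ j ∈ Finset.range n, c j • M ^ j) x = x) : M x = 0 := by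
  match n, hM, hx with
  | 0, hM, hx =>
    rw [← hx]
    simp
  | 1, hM, hx =>
    rw [pow_one] at hM
    rw [hM]
    rfl
  | n + 2, hM, hx =>
    have key : ∀ m : ℕ, (M ^ (m + 1)) x = 0 → M x = 0 := by
      intro m
      induction m with
      | zero => intro h; simpa using h
      | succ m ih =>
        intro h
        refine ih ?_
        have h2 := congrArg (M ^ m) hx
        rw [Finset.sum_range_succ', Finset.sum_range_succ'] at h2
        simp only [LinearMap.add_apply, LinearMap.sum_apply, map_add, map_sum,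
          LinearMap.smul_apply, map_smul, ← Module.End.mul_apply, ← pow_add] at h2
        rw [Finset.sum_eq_zero, h0] at h2
        · simpa [h1] using h2
        · intro j _
          have h3 : m + (j + 1 + 1) = j + (m + 1 + 1) := by ring
          rw [h3, pow_add, Module.End.mul_apply, h, map_zero, smul_zero]
    exact key (n + 1) (by rw [hM]; rfl)

variable {E : Env} {F : Type} [Field F] (P : GPt E F)

lemma GPt.v0_smul {K L : D E (Spec (.of F))} (a : ℚ_[E.ℓ]) (f : K ⟶ L) :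
    P.v0 (a • f) = a • P.v0 f := by
  unfold v0 H0m
  rw [Functor.map_smul]
  refine LinearMap.ext fun x => ?_
  exact ((((DerivedCategory.homologyFunctor _ 0).map f).val.app
    (op P.pt)).hom.map_smul ((qc E _).c _ a) x)

lemma gh_act (K : D E (Spec (.of F))) (g : E.G) (hg : E.ρ g = 1)
    (τ : FEnd (geoM E (Spec (.of F)))) (hτ : IsAct E g τ) (x : (P.sub ⊥).V0 (geoO E K)) :
    P.gh ⊥ K ((P.sub ⊥).v0 ((dNat τ).app K) x) = P.gA K g⁻¹ (P.gh ⊥ K x) := by
  have h := GPt.rE_nNat ⊥ τ K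
  refine (congrArg (fun q => secL q (P.sub ⊥).pt x) h).trans ?_
  refine hτ (H0 K) (P.sub ⊥).pt (P.gE g⁻¹) ⟨?_, fun _ => rfl⟩ (P.gh ⊥ K x)
  change (E.ρ g⁻¹).hom = 𝟙 _
  rw [map_inv, hg, inv_one]
  rfl

/-- A vector fixed by the inertia group is killed by the logarithm of the monodromy. -/
theorem log_kills {t : E.G → ℚ_[E.ℓ]}
    (ht : ∀ U : Subgroup E.G, IsOpen (U : Set E.G) → ∃ g ∈ U, E.ρ g = 1 ∧ t g ≠ 0)
    {K : D E (Spec (.of F))} {N : DEnd (geoO E K)} (hN : IsLog E t K N)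
    (x : (P.sub ⊥).V0 (geoO E K))
    (hx : ∀ g, E.ρ g = 1 → P.gA K g (P.gh ⊥ K x) = P.gh ⊥ K x) :
    (P.sub ⊥).v0 N x = 0 := by
  obtain ⟨n, hn, U, hU, h⟩ := hN
  obtain ⟨g, hgU, hg, htg⟩ := ht U hU
  obtain ⟨τ, hτ, hexp⟩ := h g hgU hg
  have hy : (P.sub ⊥).v0 ((dNat τ).app K) x = x := by
    refine P.gh_inj ⊥ K ?_
    rw [gh_act P K g hg τ hτ]
    exact hx _ (by rw [map_inv, hg, inv_one])
  have h0 : (t g ^ 0 * ((0 : ℕ).factorial : ℚ_[E.ℓ])⁻¹) = 1 := by simp
  have h1 : (t g ^ 1 * ((1 : ℕ).factorial : ℚ_[E.ℓ])⁻¹) ≠ 0 := by simpa using htg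
  refine nilp_aux (show Module.End ℚ_[E.geo.ℓ] _ from (P.sub ⊥).v0 N)
      (fun j => (t g ^ j * (j.factorial : ℚ_[E.ℓ])⁻¹ : ℚ_[E.ℓ])) h0 h1 n ?_ x ?_
  · refine ((P.sub ⊥).v0_pow (show End (geoO E K) from N) n).symm.trans ?_
    refine (congrArg (fun q : geoO E K ⟶ geoO E K => (P.sub ⊥).v0 q) hn).trans ?_
    exact (P.sub ⊥).v0_zero
  · refine Eq.trans ?_ hy
    have h2 : (dNat τ).app K = _ := hexp
    refine Eq.trans ?_ (congrArg (fun q => (P.sub ⊥).v0 q x) h2).symm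
    have h3 := (P.sub ⊥).v0_sum (Finset.range n) (fun j : ℕ =>
      (t g ^ j * (j.factorial : ℚ_[E.ℓ])⁻¹) • (show geoO E K ⟶ geoO E K from
        (show End (geoO E K) from N) ^ j))
    refine Eq.trans ?_ (congrArg (fun q => q x) h3).symm
    refine congrArg (fun q : Module.End ℚ_[E.geo.ℓ] _ => q x) (Finset.sum_congr rfl fun j _ => ?_)
    refine Eq.trans ?_ ((P.sub ⊥).v0_smul _ _).symm
    refine congrArg (fun q : Module.End ℚ_[E.geo.ℓ] _ => (show ℚ_[E.geo.ℓ] from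
      (t g ^ j * (j.factorial : ℚ_[E.ℓ])⁻¹ : ℚ_[E.ℓ])) • q) ?_
    exact ((P.sub ⊥).v0_pow (show End (geoO E K) from N) j).symm

end

end Pool.Agent.H72.MQ
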