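import Pool.Agent.H7.MQN.Wt
import Pool.Agent.H72.MP.Der

/-!
Negative half of MP_657af9_ag: the monodromy filtration at the point.
-/

open CategoryTheory Limits AlgebraicGeometry TopologicalSpace Opposite Pretriangulated

namespace Pool.Agent.H72.MQ

open Tw

attribute [local instance] secModule

noncomputable section

variable {E : Env} {F : Type} [Field F] (P : GPt E F)

/-- The cohomology sheaf in degree zero. -/
abbrev H0 (K : D E (Spec (.of F))) : Sh E (Spec (.of F)) :=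
  (DerivedCategory.homologyFunctor _ 0).obj K

/-- The map on cohomology in degree zero. -/
abbrev H0m {K L : D E (Spec (.of F))} (f : K ⟶ L) : H0 K ⟶ H0 L :=
  (DerivedCategory.homologyFunctor _ 0).map f

namespace GPt

/-- The cohomology in degree zero, at the geometric point. -/
abbrev V0 (K : D E (Spec (.of F))) : Type 1 := (H0 K).val.obj (op P.pt)

/-- The map on cohomology in degree zero, at the geometric point. -/
def v0 {K L : D E (Spec (.of F))} (f : K ⟶ L) : P.V0 K →ₗ[ℚ_[E.ℓ]] P.V0 L := secL (H0m f) _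

lemma v0_comp {K L M : D E (Spec (.of F))} (f : K ⟶ L) (g : L ⟶ M) (x : P.V0 K) :
    P.v0 (f ≫ g) x = P.v0 g (P.v0 f x) := by
  have h : H0m (f ≫ g) = H0m f ≫ H0m g := Functor.map_comp _ _ _
  change secL (H0m (f ≫ g)) _ x = _
  rw [h]
  rfl

lemma v0_id {K : D E (Spec (.of F))} (x : P.V0 K) : P.v0 (𝟙 K) x = x := by
  have h : H0m (𝟙 K) = 𝟙 _ := CategoryTheory.Functor.map_id _ _
  change secL (H0m (𝟙 K)) _ x = x
  rw [h]
  rfl

lemma v0_inj {K L : D E (Spec (.of F))} (f : K ⟶ L) [Mono (H0m f)] {x y : P.V0 K}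
    (h : P.v0 f x = P.v0 f y) : x = y :=
  secL_inj (H0m f) _ h

/-- The action of the group. -/
abbrev gA (K : D E (Spec (.of F))) (g : E.G) : P.V0 K →ₗ[ℚ_[E.ℓ]] P.V0 K := rstL (H0 K) (P.gE g)

lemma v0_gA {K L : D E (Spec (.of F))} (f : K ⟶ L) (g : E.G) (x : P.V0 K) :
    P.v0 f (P.gA K g x) = P.gA L g (P.v0 f x) := secL_rst _ _ _

lemma v0_add {K L : D E (Spec (.of F))} (f g : K ⟶ L) : P.v0 (f + g) = P.v0 f + P.v0 g := by
  unfold v0 H0m
  rw [Functor.map_add]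
  rfl

lemma v0_zero {K L : D E (Spec (.of F))} : P.v0 (0 : K ⟶ L) = 0 := by
  unfold v0 H0m
  rw [Functor.map_zero]
  rfl

lemma v0_pow {K : D E (Spec (.of F))} (f : End K) (n : ℕ) :
    P.v0 (show K ⟶ K from f ^ n) = (show Module.End ℚ_[E.ℓ] _ from P.v0 f) ^ n := by
  induction n with
  | zero => exact LinearMap.ext fun x => P.v0_id x
  | succ n ih =>
    have h : (f ^ (n + 1) : End K) = f * f ^ n := pow_succ' _ _
    rw [h, pow_succ', ← ih]
    exact LinearMap.ext fun x => P.v0_comp _ _ _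

lemma v0_sum {K L : D E (Spec (.of F))} {ι : Type*} (s : Finset ι) (f : ι → (K ⟶ L)) :
    P.v0 (∑ i ∈ s, f i) = ∑ i ∈ s, P.v0 (f i) := by
  classical
  induction s using Finset.induction_on with
  | empty => simp [v0_zero]
  | insert a s ha ih => rw [Finset.sum_insert ha, Finset.sum_insert ha, v0_add, ih]

section res

variable (H : Subgroup E.G)

/-- The comparison of the cohomology with that of the restriction to a subgroup. -/
def rE (K : D E (Spec (.of F))) : H0 (resO E H K) ≅ (res E (Spec (.of F)) H).obj (H0 K) :=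
  (MP.dHom (res E (Spec (.of F)) H) 0).app K

lemma rE_nat {K L : D E (Spec (.of F))} (f : K ⟶ L) :
    H0m ((resD E _ H).map f) ≫ (rE H L).hom = (rE H K).hom ≫ (res E _ H).map (H0m f) :=
  (MP.dHom (res E (Spec (.of F)) H) 0).hom.naturality f

/-- The comparison of the cohomology at the point with that of the restriction to a subgroup. -/
def gh (K : D E (Spec (.of F))) : (P.sub H).V0 (resO E H K) → P.V0 K :=
  fun x => secL (rE H K).hom (P.sub H).pt x

lemma gh_inj (K : D E (Spec (.of F))) : Function.Injective (P.gh H K) :=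
  secL_inj (rE H K).hom _

lemma gh_surj (K : D E (Spec (.of F))) (x : P.V0 K) : ∃ y, P.gh H K y = x := by
  refine ⟨secL (rE H K).inv (P.sub H).pt x, ?_⟩
  have h : P.gh H K (secL (rE H K).inv (P.sub H).pt x) =
    secL ((rE H K).inv ≫ (rE H K).hom) (P.sub H).pt x := rfl
  rw [h, Iso.inv_hom_id]
  rfl

lemma gh_zero (K : D E (Spec (.of F))) : P.gh H K 0 = 0 := map_zero (secL (rE H K).hom (P.sub H).pt)

lemma gh_nat {K L : D E (Spec (.of F))} (f : K ⟶ L) (y : (P.sub H).V0 (resO E H K)) :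
    P.gh H L ((P.sub H).v0 ((resD E _ H).map f) y) = P.v0 f (P.gh H K y) :=
  congrArg (fun q => secL q (P.sub H).pt y) (rE_nat H f)

lemma rE_nNat (τ : FEnd (res E (Spec (.of F)) H)) (K : D E (Spec (.of F))) :
    H0m ((dNat τ).app K) ≫ (rE H K).hom = (rE H K).hom ≫ τ.app (H0 K) :=
  MP.dHom_nat τ 0 K

end res

end GPt

section fil

variable {P} {K : D E (Spec (.of F))} {N : DEnd (geoO E K)}
  (Fl : MonFil (geoD E (Spec (.of F))) (Perv E) K N)

lemma MonFil.s_mono (k : ℤ) : Mono (H0m (Fl.s k)) := by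
  refine (DerivedCategory.HomologySequence.mono_homologyMap_mor₁_iff _ (Fl.dist k) (-1) 0).2 ?_
  exact (PGE_zero (Fl.perv_gr (k + 1)).2 (by norm_num)).eq_of_src _ _

lemma MonFil.inc_mono (k : ℤ) : Mono (H0m (Fl.inc k)) := by
  obtain ⟨b, hb⟩ := Fl.high
  have key : ∀ (n : ℕ) (k : ℤ), b ≤ k + n → Mono (H0m (Fl.inc k)) := by
    intro n
    induction n with
    | zero =>
      intro k hk
      have := hb k (by simpa using hk)
      infer_instance
    | succ n ih =>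
      intro k hk
      have h1 := ih (k + 1) (by push_cast at hk; linarith)
      have h2 := Fl.s_mono k
      have h3 : H0m (Fl.inc k) = H0m (Fl.s k) ≫ H0m (Fl.inc (k + 1)) := by
        rw [← Fl.s_inc k]
        exact Functor.map_comp _ _ _
      rw [h3]
      exact mono_comp _ _
  exact key (b - k).toNat k (by have := Int.self_le_toNat (b - k); linarith)

variable (P) in
/-- `x` comes from the step `k` of the filtration. -/
def MonFil.Mem (k : ℤ) (x : P.V0 K) : Prop := ∃ y : P.V0 (Fl.M k), P.v0 (Fl.inc k) y = x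

lemma MonFil.step (m : ℤ) (y : P.V0 (Fl.M m)) (hy : P.v0 (Fl.q m) y = 0) :
    Fl.Mem P (m - 1) (P.v0 (Fl.inc m) y) := by
  obtain ⟨k, rfl⟩ : ∃ k, m = k + 1 := ⟨m - 1, by ring⟩
  rw [add_sub_cancel_right]
  obtain ⟨z, hz⟩ := P.sp_exact _ (DerivedCategory.HomologySequence.exact₂ _ (Fl.dist k) 0) y hy
  refine ⟨z, ?_⟩
  rw [← Fl.s_inc k, P.v0_comp]
  exact congrArg _ hz

lemma MonFil.exists_min (x : P.V0 K) (hx : x ≠ 0) :
    ∃ k, Fl.Mem P (k + 2) x ∧ ¬ Fl.Mem P (k + 2 - 1) x := by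
  obtain ⟨b, hb⟩ := Fl.high
  obtain ⟨a, ha⟩ := Fl.low
  have h1 : ∃ k, Fl.Mem P k x := by
    have := hb b le_rfl
    refine ⟨b, P.v0 (inv (Fl.inc b)) x, ?_⟩
    rw [← P.v0_comp, IsIso.inv_hom_id]
    exact P.v0_id x
  have h2 : ∀ k, Fl.Mem P k x → a ≤ k := by
    rintro k ⟨y, rfl⟩
    by_contra hk
    refine hx ?_
    have h3 : y = 0 := P.sp_zero ((DerivedCategory.homologyFunctor _ 0).map_isZero
      (ha k (by linarith))) y
    rw [h3, map_zero]
  obtain ⟨m, hm, hm'⟩ := Int.exists_least_of_bdd ⟨a, h2⟩ h1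
  obtain ⟨k, rfl⟩ : ∃ k, m = k + 2 := ⟨m - 2, by ring⟩
  refine ⟨k, hm, fun h => ?_⟩
  have := hm' _ h
  linarith

lemma MonFil.ν_mono (k : ℤ) (hk : -1 ≤ k) : Mono (H0m (Fl.ν k)) := by
  obtain ⟨j, hj⟩ : ∃ j : ℕ, k + 2 = (j : ℤ) := ⟨(k + 2).toNat, by
    rw [Int.toNat_of_nonneg]; linarith⟩
  have h1 := Fl.iso j
  have h2 := Fl.it_step k (-(k + 2)) (by linarith)
  rw [← hj, h2] at h1
  have h3 : Mono (H0m (Fl.ν k) ≫ H0m (Fl.it k (-(k + 2)))) := by
    rw [← Functor.map_comp]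
    infer_instance
  exact mono_of_mono _ (H0m (Fl.it k (-(k + 2))))

end fil

/-- The eigenvalue `p` is not allowed by weights at most one. -/
lemma not_good {p ℓ : ℕ} [Fact ℓ.Prime] (hp1 : 1 < p) {a : ℤ} (ha : a ≤ 1) {V : Type*}
    [AddCommGroup V] [Module ℚ_[ℓ] V]
    {A : Module.End ℚ_[ℓ] V} (hA : Good ℓ p a A) (z : V) (hz : z ≠ 0)
    (hAz : A z = (p : ℚ_[ℓ]) • z) : False := by
  obtain ⟨Q, h0, h1, h2⟩ := hA
  have h3 : Polynomial.aeval A Q z = (Polynomial.aeval (p : ℚ_[ℓ]) Q) • z := by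
    clear h0 h1 h2
    induction Q using Polynomial.induction_on with
    | C a => simp [Module.algebraMap_end_apply]
    | add P Q hP hQ => simp only [map_add, LinearMap.add_apply, hP, hQ, add_smul]
    | monomial n a ih =>
      rw [pow_succ', ← mul_assoc, mul_comm (Polynomial.C a), mul_assoc,
        map_mul (Polynomial.aeval A) Polynomial.X _, map_mul (Polynomial.aeval (p : ℚ_[ℓ]))
          Polynomial.X _, Polynomial.aeval_X, Polynomial.aeval_X,
        Module.End.mul_apply, ih, map_smul, hAz, smul_smul, mul_comm]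
  rw [h2, LinearMap.zero_apply] at h3
  have h4 : Polynomial.aeval (p : ℚ_[ℓ]) Q = 0 := (smul_eq_zero.1 h3.symm).resolve_right hz
  have h5 : Polynomial.aeval (p : AlgebraicClosure ℚ_[ℓ]) Q = 0 := by
    have h6 := Polynomial.aeval_algebraMap_apply (AlgebraicClosure ℚ_[ℓ]) (p : ℚ_[ℓ]) Q
    rw [h4, map_zero, map_natCast] at h6
    exact h6
  obtain ⟨v, hv, -, hw⟩ := h1 _ h5
  have h7 := hw p (by
    have h8 : (p : AlgebraicClosure ℚ_[ℓ]) = algebraMap ℚ _ (p : ℚ) := by simp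
    rw [h8, minpoly.eq_X_sub_C (AlgebraicClosure ℚ_[ℓ]) (p : ℚ)]
    simp)
  have hp1 : (1 : ℝ) < p := by exact_mod_cast hp1
  have h9 : ((p : ℝ)) ^ (2 : ℤ) = (p : ℝ) ^ v := by
    rw [← h7]
    simp
  have h10 := zpow_right_injective₀ (by linarith) hp1.ne' h9
  linarith


section ann

variable {X : Scheme.{0}} (H : Subgroup E.G)

lemma rst_res (M : Sh E X) {U V : Tw (E.sub H) X} (u : U ⟶ V)
    (x : M.val.obj (op ((Tw.ex E X H).obj V))) :
    rst ((res E X H).obj M).val u x = rst M.val ((Tw.ex E X H).map u) x := rfl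

lemma on_res (M : Sh E X) {U : Tw (E.sub H) X} (a : ℚ_[E.ℓ])
    (x : M.val.obj (op ((Tw.ex E X H).obj U))) :
    (qc (E.sub H) X).on a ((res E X H).obj M) U x = (qc E X).on a M ((Tw.ex E X H).obj U) x := rfl

lemma ann_res (M : Sh E X) {U : Tw (E.sub H) X} (u : U ⟶ U) (Q : Polynomial ℚ_[E.ℓ])
    (h : (qc (E.sub H) X).Ann ((res E X H).obj M) u Q) :
    (qc E X).Ann M ((Tw.ex E X H).map u) Q := by
  intro x
  exact h x

/-- Weights at most `a`. -/
def GoodS (E : Env) {X : Scheme.{0}} (a : ℤ) (M : Sh E X) {U : Tw E X} (u : U ⟶ U) : Prop :=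
  ∃ Q : Polynomial ℚ_[E.ℓ], Q ≠ 0 ∧ (∀ r : AlgebraicClosure ℚ_[E.ℓ],
    Polynomial.aeval r Q = 0 → ∃ v ≤ a, IsWeil E.ℓ E.p v r) ∧ (qc E X).Ann M u Q

lemma goodS_iff (a : ℤ) (M : Sh E X) {U : Tw E X} (u : U ⟶ U) :
    GoodS E a M u ↔ Good E.ℓ E.p a (show Module.End ℚ_[E.ℓ] _ from rstL M u) := by
  unfold GoodS Good
  simp only [ann_iff]

lemma goodS_res (a : ℤ) (M : Sh E X) {U : Tw (E.sub H) X} (u : U ⟶ U)
    (h : GoodS (E.sub H) a ((res E X H).obj M) u) : GoodS E a M ((Tw.ex E X H).map u) := by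
  obtain ⟨Q, h1, h2, h3⟩ := h
  exact ⟨Q, h1, h2, ann_res H M u Q h3⟩

end ann

variable {P} in
lemma good_res {a : ℤ} {K : D E (Spec (.of F))} {H : Subgroup E.G}
    (hK : WLE (E.sub H) a (resO E H K)) {φ : E.G} (hφH : φ ∈ H)
    (hφ : IsFrob E.p (E.ρ φ).inv) :
    Good E.ℓ E.p a (show Module.End ℚ_[E.ℓ] _ from P.gA K φ) := by
  have h1 := WLE.good (P := P.sub H) hK (φ := ⟨φ, hφH⟩) hφ 0
  rw [add_zero] at h1
  have h2 := Good.of_iso (P := P.sub H) (GPt.rE H K).symm h1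
  have h3 := goodS_res H a (H0 K) _ ((goodS_iff (E := E.sub H) _ _ _).2 h2)
  exact (goodS_iff _ _ _).1 h3

variable {P} in
/-- An element killed by `N` with Frobenius eigenvalue `p` contradicts monodromy-purity of
weight one. -/
theorem MonFil.contra {K : D E (Spec (.of F))} {N : DEnd (geoO E K)}
    (Fl : MonFil (geoD E (Spec (.of F))) (Perv E) K N) (hp1 : 1 < E.p)
    {H : Subgroup E.G}
    (hw : ∀ k, WLE (E.sub H) (k + 1) (resO E H (Fl.gr k))) {φ : E.G} (hφH : φ ∈ H)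
    (hφ : IsFrob E.p (E.ρ φ).inv) (x : (P.sub ⊥).V0 (geoO E K))
    (hx : x ≠ 0) (hN : (P.sub ⊥).v0 N x = 0)
    (hA : P.gA K φ (P.gh ⊥ K x) = (E.p : ℚ_[E.ℓ]) • P.gh ⊥ K x) : False := by
  have hx' : P.gh ⊥ K x ≠ 0 := fun h => hx (P.gh_inj ⊥ K (h.trans (P.gh_zero ⊥ K).symm))
  obtain ⟨k, ⟨y, hy⟩, hk⟩ := Fl.exists_min (P.gh ⊥ K x) hx'
  have hinc := Fl.inc_mono (k + 2)
  have hz : P.v0 (Fl.q (k + 2)) y ≠ 0 := by
    intro h
    refine hk ?_
    rw [← hy]
    exact Fl.step (k + 2) y h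
  obtain ⟨y', hy'⟩ := P.gh_surj ⊥ _ y
  have hyx : (P.sub ⊥).v0 ((geoD E _).map (Fl.inc (k + 2))) y' = x := by
    refine P.gh_inj ⊥ K ?_
    rw [← hy, ← hy']
    exact P.gh_nat ⊥ _ _
  have hNk : (P.sub ⊥).v0 (Fl.Nk k) y' = 0 := by
    have h1 : (P.sub ⊥).v0 ((geoD E _).map (Fl.inc k)) ((P.sub ⊥).v0 (Fl.Nk k) y') = 0 := by
      rw [← GPt.v0_comp, Fl.Nk_inc, GPt.v0_comp, hyx, hN]
    have h2 := P.gh_nat ⊥ (Fl.inc k) ((P.sub ⊥).v0 (Fl.Nk k) y')
    have h3 := Fl.inc_mono k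
    refine P.gh_inj ⊥ _ (P.v0_inj (Fl.inc k) ?_)
    rw [← h2, P.gh_zero, map_zero]
    exact (congrArg _ h1).trans (P.gh_zero ⊥ K)
  have hν : (P.sub ⊥).v0 (Fl.ν k) ((P.sub ⊥).v0 ((geoD E _).map (Fl.q (k + 2))) y') = 0 := by
    rw [← GPt.v0_comp, Fl.q_ν, GPt.v0_comp, hNk, map_zero]
  have hk1 : k < -1 := by
    by_contra h
    have h1 := Fl.ν_mono k (not_lt.1 h)
    have h2 : (P.sub ⊥).v0 ((geoD E _).map (Fl.q (k + 2))) y' = 0 := by
      refine (P.sub ⊥).v0_inj (Fl.ν k) ?_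
      rw [hν, map_zero]
    refine hz ?_
    rw [← hy']
    refine (P.gh_nat ⊥ (Fl.q (k + 2)) y').symm.trans ?_
    exact (congrArg _ h2).trans (P.gh_zero ⊥ _)
  have hAy : P.gA _ φ y = (E.p : ℚ_[E.ℓ]) • y := by
    refine P.v0_inj (Fl.inc (k + 2)) ?_
    rw [P.v0_gA, map_smul, hy, hA]
  refine not_good hp1 (a := k + 2 + 1) (by linarith) (good_res (P := P) (hw (k + 2)) hφH hφ) _ hz ?_
  change P.gA _ φ (P.v0 (Fl.q (k + 2)) y) = _
  rw [← P.v0_gA, hAy, map_smul]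

end

end Pool.Agent.H72.MQ
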