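import Pool.Agent.H72.MQ.Cex
import Pool.Agent.H72.MP.Mod.A4

/-!
MP_657af9_ag: existence of sections and of Frobenius elements.
-/

open CategoryTheory Limits AlgebraicGeometry TopologicalSpace Opposite Pretriangulated

namespace Pool.Agent.H72.MQ

noncomputable section

lemma specAut_inj {R : Type} [CommRing R] {g h : RingAut R} (e : specAut g = specAut h) :
    g = h := by
  have h1 : Spec.map (CommRingCat.ofHom g.toRingHom) = Spec.map (CommRingCat.ofHom h.toRingHom) :=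
    congrArg Iso.inv e
  have h2 := congrArg CommRingCat.Hom.hom (Spec.map_injective h1)
  exact RingEquiv.ext fun x => congrArg (fun q : R →+* R => q x) h2

lemma specAut_surj {R : Type} [CommRing R] (α : Aut (Spec (.of R))) :
    ∃ g : RingAut R, specAut g = α := by
  have h1 : Spec.preimage α.inv ≫ Spec.preimage α.hom = 𝟙 _ := by
    refine Spec.map_injective ?_
    rw [Spec.map_comp, Spec.map_preimage, Spec.map_preimage, Spec.map_id]
    exact α.hom_inv_id
  have h2 : Spec.preimage α.hom ≫ Spec.preimage α.inv = 𝟙 _ := by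
    refine Spec.map_injective ?_
    rw [Spec.map_comp, Spec.map_preimage, Spec.map_preimage, Spec.map_id]
    exact α.inv_hom_id
  let g : RingAut R := RingEquiv.ofRingHom (Spec.preimage α.inv).hom (Spec.preimage α.hom).hom
    (congrArg CommRingCat.Hom.hom h2) (congrArg CommRingCat.Hom.hom h1)
  refine ⟨g, Iso.ext ?_⟩
  change Spec.map (Spec.preimage α.hom) = _
  rw [Spec.map_preimage]

variable {p ℓ : ℕ} [Fact p.Prime] [Fact ℓ.Prime]

lemma Eη_rho (g : (Eη p ℓ).G) : (Eη p ℓ).ρ g = specAut (MP.ρη p g) :=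
  congrArg specAut (resAct_eq p g)

lemma rho_eq_one_iff (g : (Eη p ℓ).G) : (Eη p ℓ).ρ g = 1 ↔ MP.ρη p g = 1 := by
  rw [Eη_rho]
  constructor
  · intro h
    exact specAut_inj (h.trans (specAut_one _).symm)
  · intro h
    rw [h]
    exact specAut_one _

/-- The section defined by a continuous section of the projection. -/
lemma isSec_range (s : MP.Sec p) :
    IsSec (Eη p ℓ) (show Subgroup (Gη p) from s.σ.range) := by
  refine ⟨?_, ?_, ?_⟩
  · change IsClosed (Set.range s.σ)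
    exact (isCompact_range s.cont).isClosed
  · rintro ⟨g, a, rfl⟩ ⟨h, b, rfl⟩ hgh
    have h1 : (Eη p ℓ).ρ (s.σ a) = (Eη p ℓ).ρ (s.σ b) := hgh
    rw [Eη_rho, Eη_rho] at h1
    have h2 := specAut_inj h1
    rw [s.sec, s.sec] at h2
    have h3 : a = b := AlgEquiv.ext fun x => congrArg (fun q : MP.kb p ≃+* MP.kb p => q x) h2
    subst h3
    rfl
  · intro α
    obtain ⟨g, rfl⟩ := specAut_surj α
    let a : MP.Gs p := AlgEquiv.ofRingEquiv (f := (g : MP.kb p ≃+* MP.kb p)) (fun x => by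
      exact congrArg (fun q : ZMod p →+* MP.kb p => q x) (RingHom.ext_zmod
        ((g : MP.kb p ≃+* MP.kb p).toRingHom.comp (algebraMap (ZMod p) (MP.kb p)))
          (algebraMap (ZMod p) (MP.kb p))))
    refine ⟨⟨s.σ a, a, rfl⟩, ?_⟩
    refine (Eη_rho (ℓ := ℓ) (s.σ a)).trans ?_
    rw [s.sec]
    rfl

lemma isFrob_of {g : (Eη p ℓ).G} (h : ∀ x, MP.ρη p g x = x ^ p) :
    IsFrob (Eη p ℓ).p ((Eη p ℓ).ρ g).inv := by
  rw [Eη_rho]
  intro x
  change (Spec.map (CommRingCat.ofHom (MP.ρη p g).toRingHom)).appTop.hom x = x ^ p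
  have h1 := Scheme.ΓSpecIso_naturality (CommRingCat.ofHom (MP.ρη p g).toRingHom)
  have h2 : (Scheme.ΓSpecIso (.of (MP.kb p))).hom.hom
      ((Spec.map (CommRingCat.ofHom (MP.ρη p g).toRingHom)).appTop.hom x) =
      MP.ρη p g ((Scheme.ΓSpecIso (.of (MP.kb p))).hom.hom x) :=
    congrArg (fun q => CommRingCat.Hom.hom q x) h1
  have h3 : Function.Injective (Scheme.ΓSpecIso (.of (MP.kb p))).hom.hom :=
    (Scheme.ΓSpecIso (.of (MP.kb p))).commRingCatIsoToRingEquiv.injective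
  refine h3 ?_
  rw [h2, h]
  exact (map_pow (Scheme.ΓSpecIso (.of (MP.kb p))).hom.hom
    (show Γ(Spec (.of (MP.kb p)), ⊤) from x) p).symm

variable (p ℓ) in
/-- There is a section and a Frobenius element. -/
theorem exists_isSec_frob : ∃ (H : Subgroup (Eη p ℓ).G) (φ : (Eη p ℓ).G),
    IsSec (Eη p ℓ) H ∧ φ ∈ H ∧ IsFrob (Eη p ℓ).p ((Eη p ℓ).ρ φ).inv ∧
      ∀ x, MP.ρη p φ x = x ^ p := by
  obtain ⟨s⟩ := MP.exists_sec p
  obtain ⟨f, hf⟩ := MP.exists_frob p
  have h1 : ∀ x, MP.ρη p (s.σ f) x = x ^ p := fun x => by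
    rw [s.sec]
    exact hf x
  exact ⟨_, s.σ f, isSec_range s, ⟨f, rfl⟩, isFrob_of h1, h1⟩

end

end Pool.Agent.H72.MQ
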