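import Pool.Agent.H7.MQN.Lg
import Pool.Agent.H7.MQN.Cls
import Pool.Agent.H7.MQN.Sc

/-!
Negative half of MP_657af9_ag: the direct image is not monodromy-pure of weight one.
-/

open CategoryTheory Limits AlgebraicGeometry TopologicalSpace Opposite Pretriangulated

namespace Pool.Agent.H72.MQ

open Tw

attribute [local instance] secModule

noncomputable section

variable {p ℓ : ℕ} [Fact p.Prime] [Fact ℓ.Prime]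

lemma cInv_inertia (hℓ : ℓ ≠ p) (g : (Eη p ℓ).G) (hg : MP.ρη p g = 1) :
    (((cInv p ℓ g)⁻¹ : ℚ_[(Eη p ℓ).ℓ]ˣ) : ℚ_[(Eη p ℓ).ℓ]) = 1 := by
  have h1 := MP.cyc_inertia p ℓ hℓ g hg
  have h2 : MP.cycInv p ℓ g =
    Units.map (algebraMap ℤ_[ℓ] ℚ_[ℓ]).toMonoidHom ((MP.cyc p ℓ g)⁻¹) := rfl
  have h3 : (((MP.cycInv p ℓ g)⁻¹ : ℚ_[ℓ]ˣ) : ℚ_[ℓ]) = 1 := by
    rw [h2, h1, inv_one, map_one, inv_one, Units.val_one]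
  exact h3

lemma cInv_frob (hℓ : ℓ ≠ p) (g : (Eη p ℓ).G) (hg : ∀ x, MP.ρη p g x = x ^ p) :
    (((cInv p ℓ g)⁻¹ : ℚ_[(Eη p ℓ).ℓ]ˣ) : ℚ_[(Eη p ℓ).ℓ]) =
      ((Eη p ℓ).p : ℚ_[(Eη p ℓ).ℓ]) := by
  have h1 := MP.A2_main p ℓ hℓ g p hg
  have h2 : MP.cycInv p ℓ g =
    Units.map (algebraMap ℤ_[ℓ] ℚ_[ℓ]).toMonoidHom ((MP.cyc p ℓ g)⁻¹) := rfl
  have h3 : (((MP.cycInv p ℓ g)⁻¹ : ℚ_[ℓ]ˣ) : ℚ_[ℓ]) = (p : ℚ_[ℓ]) := by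
    rw [h2, ← map_inv, inv_inv]
    change algebraMap ℤ_[ℓ] ℚ_[ℓ] ((MP.cyc p ℓ g : ℤ_[ℓ]ˣ) : ℤ_[ℓ]) = p
    rw [h1, map_natCast]
  exact h3

lemma tq_ne (hℓ : ℓ ≠ p) (κ : Kum p ℓ) (U : Subgroup (Eη p ℓ).G)
    (hU : IsOpen (U : Set (Eη p ℓ).G)) :
    ∃ g ∈ U, (Eη p ℓ).ρ g = 1 ∧ κ.tq g ≠ 0 := by
  obtain ⟨g₀, hg₀, ht₀⟩ := MP.Kum.exists_inertia hℓ κ.toMP
  obtain ⟨m, hm, hmU⟩ := MP.exists_pow_mem (p := p) U hU g₀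
  have hg : MP.ρη p (g₀ ^ m) = 1 := by rw [map_pow, hg₀, one_pow]
  have ht : κ.toMP.t (g₀ ^ m) = m * κ.toMP.t g₀ := by
    clear hm hmU hg
    induction m with
    | zero =>
      have h1 := κ.toMP.cocycle 1 1
      rw [mul_one, map_one, Units.val_one, one_mul] at h1
      rw [pow_zero, Nat.cast_zero, zero_mul]
      exact left_eq_add.1 h1
    | succ m ih =>
      rw [pow_succ, κ.toMP.cocycle, ih, map_pow, MP.cyc_inertia p ℓ hℓ g₀ hg₀]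
      push_cast
      simp
      ring
  refine ⟨g₀ ^ m, hmU, (rho_eq_one_iff _).2 hg, ?_⟩
  have h1 : (κ.toMP.t g₀ : ℚ_[ℓ]) ≠ 0 := by
    intro h2
    exact ht₀ (Subtype.ext h2)
  have h2 : ((κ.toMP.t (g₀ ^ m) : ℤ_[ℓ]) : ℚ_[ℓ]) ≠ 0 := by
    rw [ht]
    push_cast
    exact mul_ne_zero (by exact_mod_cast hm.ne') h1
  exact h2

/-- The direct image of the complex `F` under the structure morphism is not monodromy-pure of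
weight one. -/
theorem neg (hℓ : ℓ ≠ p) (κ : Kum p ℓ) {X : Scheme.{0}} (i : YY p ⟶ X) (f : X ⟶ YY p)
    (h : i ≫ f = 𝟙 _) : ¬ MPure (Eη p ℓ) κ.tq 1 (RpushO (Eη p ℓ) f (FF κ i)) := by
  rintro ⟨-, hM⟩
  obtain ⟨Q, hQ, -, -, N, hN, Fl, hF⟩ := hM 0
  obtain ⟨v, hv, hg⟩ := class_exists κ i f h
  obtain ⟨e⟩ := hQ.homologyIso
  obtain ⟨H, φ, hH, hφH, hφ, hφ'⟩ := exists_isSec_frob p ℓ
  have hx0 : (secL e.inv (ptg p ℓ) v : (gptη p ℓ).V0 Q) ≠ 0 := by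
    intro h0
    exact hv (secL_inj e.inv _ (h0.trans (map_zero _).symm))
  have hgA : ∀ g, (gptη p ℓ).gA Q g (secL e.inv (ptg p ℓ) v) =
      (((cInv p ℓ g)⁻¹ : ℚ_[(Eη p ℓ).ℓ]ˣ) : ℚ_[(Eη p ℓ).ℓ]) •
        (secL e.inv (ptg p ℓ) v : (gptη p ℓ).V0 Q) := by
    intro g
    have h1 := congrArg (secL e.inv (ptg p ℓ)) (hg g)
    rw [map_smul, secL_rst] at h1
    exact h1
  obtain ⟨x, hx⟩ := (gptη p ℓ).gh_surj ⊥ Q (secL e.inv (ptg p ℓ) v)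
  have hx1 : x ≠ 0 := by
    rintro rfl
    exact hx0 (hx.symm.trans ((gptη p ℓ).gh_zero ⊥ Q))
  refine Fl.contra (P := gptη p ℓ) (Fact.out : p.Prime).one_lt
    (fun k => ?_) hφH hφ x hx1 ?_ ?_
  · have := (hF k H hH).1
    simpa using this
  · refine log_kills (gptη p ℓ) (tq_ne hℓ κ) hN x fun g hg1 => ?_
    rw [hx, hgA, cInv_inertia hℓ g ((rho_eq_one_iff g).1 hg1), one_smul]
  · rw [hx, hgA, cInv_frob hℓ φ hφ']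

end

end Pool.Agent.H72.MQ
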