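import Pool.Agent.H72.MQ.S6
import Pool.Agent.H72.MQ.P6
import Pool.Agent.H72.MP.Mod.W1

/-!
Negative half of MP_657af9_ag: evaluation at the geometric point of the spectrum of a field.
-/

open CategoryTheory Limits AlgebraicGeometry TopologicalSpace Opposite Pretriangulated

namespace Pool.Agent.H72.MQ

open Tw

noncomputable section

/-- A geometric point of the spectrum of the field `F`. -/
structure GPt (E : Env) (F : Type) [Field F] where
  z : E.S ⟶ Spec (.of F)
  we : WeaklyEtale z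
  cov : ∀ R ∈ Scheme.proetalePrecoverage E.S,
    ∃ (T : Scheme.{0}) (f : T ⟶ E.S) (_ : R f) (s : E.S ⟶ T), s ≫ f = 𝟙 _
  inv : ∀ g, (E.ρ g).hom ≫ z = z

section

variable {E : Env} {X : Scheme.{0}}

/-- The object of the site defined by a weakly etale morphism from `E.S`. -/
def ptT (z : E.S ⟶ X) (hz : WeaklyEtale z) : Tw E X := ⟨E.S, z, hz, 𝟙 _⟩

/-- The endomorphism defined by an element of the group. -/
def ptEnd (z : E.S ⟶ X) (hz : WeaklyEtale z) (g : E.G) (h : (E.ρ g).hom ≫ z = z) :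
    ptT z hz ⟶ ptT z hz where
  f := (E.ρ g).hom
  c := ⟨fun _ => g, continuous_const⟩
  w := h
  h := fun t => by
    change _ ≫ _ ≫ 𝟙 _ = _ ≫ 𝟙 _ ≫ _
    rw [Category.comp_id, Category.id_comp]
    rfl

/-- Coverings of a geometric point are trivial. -/
lemma point_sieve' (cov : ∀ R ∈ Scheme.proetalePrecoverage E.S,
      ∃ (T : Scheme.{0}) (f : T ⟶ E.S) (_ : R f) (s : E.S ⟶ T), s ≫ f = 𝟙 _)
    {z : E.S ⟶ X} {hz : WeaklyEtale z} (S : Sieve (ptT z hz)) (hS : S ∈ topo E X _) :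
    S.arrows (𝟙 _) := by
  obtain ⟨R, hR, hRS⟩ := mem_topo_iff.1 hS
  obtain ⟨ι, Z, g, rfl⟩ := R.exists_eq_ofArrows
  have hR' : (Presieve.ofArrows Z g).map (forget E X) ∈
    Scheme.proetalePrecoverage (ptT z hz).T := hR
  rw [Presieve.map_ofArrows] at hR'
  obtain ⟨T, f, hf, s, hs⟩ := cov _ hR'
  obtain ⟨i⟩ := hf
  let s' : ptT z hz ⟶ Z i :=
    { f := s
      c := ⟨fun t => ((g i).c (s t))⁻¹ * 1, by fun_prop⟩
      w := by
        have h1 : (g i).f ≫ (ptT z hz).π = (Z i).π := (g i).w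
        have h2 : s ≫ (g i).f = 𝟙 _ := hs
        exact (congrArg (fun q => s ≫ q) h1.symm).trans ((Category.assoc _ _ _).symm.trans
          ((congrArg (fun q => q ≫ z) h2).trans (Category.id_comp _)))
      h := by
        refine IsTwF.cancel (g := s) (g i).h ?_
        have h2 : s ≫ (g i).f = 𝟙 _ := hs
        rw [h2]
        exact IsTwF.id _ }
  have h3 : s' ≫ g i = 𝟙 _ := by
    refine hom_ext hs (fun t => ?_)
    change (g i).c (s t) * (((g i).c (s t))⁻¹ * 1) = 1
    rw [mul_one, mul_inv_cancel]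
  rw [← h3]
  exact S.downward_closed (hRS _ _ ⟨i⟩) _

lemma isPt_ptT (cov : ∀ R ∈ Scheme.proetalePrecoverage E.S,
      ∃ (T : Scheme.{0}) (f : T ⟶ E.S) (_ : R f) (s : E.S ⟶ T), s ≫ f = 𝟙 _)
    (z : E.S ⟶ X) (hz : WeaklyEtale z) : IsPt E (ptT z hz) :=
  ⟨fun R hR => (Sieve.id_mem_iff_eq_top).1 (point_sieve' cov R hR), 𝟙 _, Category.comp_id _⟩

end

namespace GPt

variable {E : Env} {F : Type} [Field F] (P : GPt E F)

/-- The point as an object of the twisted site. -/
def pt : Tw E (Spec (.of F)) := ptT P.z P.we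

/-- The endomorphism of the point defined by an element of the group. -/
def gE (g : E.G) : P.pt ⟶ P.pt := ptEnd P.z P.we g (P.inv g)

/-- Change of group. -/
def sub (H : Subgroup E.G) : GPt (E.sub H) F := ⟨P.z, P.we, P.cov, fun g => P.inv g.1⟩

lemma point_sieve (S : Sieve P.pt) (hS : S ∈ topo E _ _) : S.arrows (𝟙 _) :=
  point_sieve' P.cov S hS

/-- The sections over the point. -/
abbrev sp (M : Sh E (Spec (.of F))) : Type 1 := M.val.obj (op P.pt)

/-- The action of a morphism on the sections over the point -/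
abbrev spMap {M N : Sh E (Spec (.of F))} (f : M ⟶ N) : P.sp M →+ P.sp N :=
  (f.val.app (op P.pt)).hom.toAddMonoidHom

/-- Exactness at the point. -/
lemma sp_exact (S : ShortComplex (Sh E (Spec (.of F)))) (hS : S.Exact) (y : P.sp S.X₂)
    (hy : P.spMap S.g y = 0) : ∃ x : P.sp S.X₁, P.spMap S.f x = y := by
  obtain ⟨T, hT, hT'⟩ := (MP.exact_iff S).1 hS _ y hy
  obtain ⟨x, hx⟩ := hT' _ (𝟙 _) (P.point_sieve T hT)
  refine ⟨x, hx.trans ?_⟩
  exact rst_id S.X₂.val _ y

lemma sp_mono {M N : Sh E (Spec (.of F))} (f : M ⟶ N) [Mono f] (x : P.sp M)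
    (hx : P.spMap f x = 0) : x = 0 :=
  (MP.mono_iff_injective f).1 inferInstance _ (hx.trans (map_zero _).symm)

lemma sp_zero {M : Sh E (Spec (.of F))} (hM : IsZero M) (x : P.sp M) : x = 0 := by
  have h1 : 𝟙 M = 0 := hM.eq_of_src _ _
  have h2 : P.spMap (𝟙 M) x = P.spMap (0 : M ⟶ M) x := by rw [h1]
  exact h2

end GPt

end

end Pool.Agent.H72.MQ
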