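import Pool.Agent.H7.MQN.Pt
import Pool.Agent.H7.MQN.Lev

/-!
Negative half of MP_657af9_ag: weights of the homology at the point.
-/

open CategoryTheory Limits AlgebraicGeometry TopologicalSpace Opposite Pretriangulated

namespace Pool.Agent.H72.MQ

open Tw

noncomputable section

section lin

lemma aeval_intertwine {R V W : Type*} [CommRing R] [AddCommGroup V] [Module R V]
    [AddCommGroup W] [Module R W] (A : Module.End R V) (B : Module.End R W) (g : V →ₗ[R] W)
    (h : ∀ x, g (A x) = B (g x)) (P : Polynomial R) (x : V) :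
    g (Polynomial.aeval A P x) = Polynomial.aeval B P (g x) := by
  induction P using Polynomial.induction_on generalizing x with
  | C a => simp
  | add P Q hP hQ => simp [hP, hQ]
  | monomial n a ih =>
    rw [pow_succ, ← mul_assoc, map_mul (Polynomial.aeval A) (_ * _) _,
      map_mul (Polynomial.aeval B) (_ * _) _, Polynomial.aeval_X, Polynomial.aeval_X,
      Module.End.mul_apply, Module.End.mul_apply, ih, h]

end lin

section rstl

variable {E : Env} {X : Scheme.{0}}

/-- The action of the constants on the sections. -/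
@[reducible] def secModule (M : Sh E X) (U : Tw E X) : Module ℚ_[E.ℓ] (M.val.obj (op U)) :=
  Module.compHom _ ((qc E X).c U)

attribute [local instance] secModule

lemma sec_smul (M : Sh E X) (U : Tw E X) (a : ℚ_[E.ℓ]) (x : M.val.obj (op U)) :
    a • x = (qc E X).on a M U x := rfl

/-- sections of a morphism as a linear map -/
def secL {M N : Sh E X} (f : M ⟶ N) (U : Tw E X) :
    M.val.obj (op U) →ₗ[ℚ_[E.ℓ]] N.val.obj (op U) where
  toFun x := f.val.app (op U) x
  map_add' x y := (f.val.app (op U)).hom.map_add x y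
  map_smul' a x := (f.val.app (op U)).hom.map_smul ((qc E X).c U a) x

/-- restriction as a linear map -/
def rstL (M : Sh E X) {U V : Tw E X} (u : V ⟶ U) :
    M.val.obj (op U) →ₗ[ℚ_[E.ℓ]] M.val.obj (op V) where
  toFun x := rst M.val u x
  map_add' x y := rst_add M.val u x y
  map_smul' a x := rst_smul M.val u ((qc E X).c U a) x

lemma secL_rst {M N : Sh E X} (f : M ⟶ N) {U V : Tw E X} (u : V ⟶ U)
    (x : M.val.obj (op U)) : secL f V (rstL M u x) = rstL N u (secL f U x) :=
  md_nat f u x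

lemma rstL_comp (M : Sh E X) {U V W : Tw E X} (v : W ⟶ V) (u : V ⟶ U)
    (x : M.val.obj (op U)) : rstL M (v ≫ u) x = rstL M v (rstL M u x) :=
  rst_comp M.val v u x

lemma rstL_id (M : Sh E X) (U : Tw E X) (x : M.val.obj (op U)) :
    rstL M (𝟙 U) x = x := rst_id M.val U x

lemma secL_inj {M N : Sh E X} (f : M ⟶ N) [Mono f] (U : Tw E X) :
    Function.Injective (secL f U) := (MP.mono_iff_injective f).1 inferInstance U

lemma aeval_conj (M : Sh E X) {U V : Tw E X} (θ : U ⟶ V) (θ' : V ⟶ U) (h1 : θ ≫ θ' = 𝟙 _)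
    (u : U ⟶ U) (v : V ⟶ V) (h : u ≫ θ = θ ≫ v) (Q : Polynomial ℚ_[E.ℓ])
    (hQ : Polynomial.aeval (show Module.End ℚ_[E.ℓ] (M.val.obj (op V)) from rstL M v) Q = 0) :
    Polynomial.aeval (show Module.End ℚ_[E.ℓ] (M.val.obj (op U)) from rstL M u) Q = 0 := by
  refine LinearMap.ext fun x => ?_
  have h2 : x = rstL M θ (rstL M θ' x) := by
    rw [← rstL_comp, h1, rstL_id]
  rw [h2]
  have h3 := aeval_intertwine (show Module.End ℚ_[E.ℓ] (M.val.obj (op V)) from rstL M v)
    (show Module.End ℚ_[E.ℓ] (M.val.obj (op U)) from rstL M u) (rstL M θ) (fun x => by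
      change rstL M θ (rstL M v x) = rstL M u (rstL M θ x)
      rw [← rstL_comp, ← rstL_comp, h]) Q (rstL M θ' x)
  rw [← h3, hQ]
  simp

/-- The polynomial annihilates the action. -/
lemma ann_iff (M : Sh E X) {U : Tw E X} (u : U ⟶ U) (P : Polynomial ℚ_[E.ℓ]) :
    (qc E X).Ann M u P ↔
      Polynomial.aeval (show Module.End ℚ_[E.ℓ] (M.val.obj (op U)) from rstL M u) P = 0 := by
  have key : ∀ x : M.val.obj (op U),
    Polynomial.aeval (show Module.End ℚ_[E.ℓ] (M.val.obj (op U)) from rstL M u) P x =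
      P.sum (fun i a => (qc E X).on a M U ((rst M.val u)^[i] x)) := by
    intro x
    rw [Polynomial.aeval_endomorphism]
    refine Finset.sum_congr rfl fun i _ => ?_
    change _ • _ = _ • _
    rw [Module.End.pow_apply]
    rfl
  constructor
  · intro h
    exact LinearMap.ext fun x => (key x).trans (h x)
  · intro h x
    rw [← key, h]
    rfl

end rstl

attribute [local instance] secModule

section good

variable (ℓ : ℕ) [Fact ℓ.Prime]

/-- The endomorphism is annihilated by a polynomial whose roots are Weil numbers of weight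
at most `a`. -/
def Good (p : ℕ) (a : ℤ) {V : Type*} [AddCommGroup V] [Module ℚ_[ℓ] V] (A : Module.End ℚ_[ℓ] V) :
    Prop :=
  ∃ Q : Polynomial ℚ_[ℓ], Q ≠ 0 ∧ (∀ r : AlgebraicClosure ℚ_[ℓ],
    Polynomial.aeval r Q = 0 → ∃ v ≤ a, IsWeil ℓ p v r) ∧ Polynomial.aeval A Q = 0

variable {ℓ} {p : ℕ}

lemma Good.zero {a : ℤ} {V : Type*} [AddCommGroup V] [Module ℚ_[ℓ] V] (A : Module.End ℚ_[ℓ] V)
    (h : ∀ x : V, x = 0) : Good ℓ p a A :=
  ⟨1, one_ne_zero, fun r hr => by simp at hr, LinearMap.ext fun x => (h _).trans (h _).symm⟩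

lemma Good.of_inj {a : ℤ} {V W : Type*} [AddCommGroup V] [Module ℚ_[ℓ] V]
    [AddCommGroup W] [Module ℚ_[ℓ] W] {A : Module.End ℚ_[ℓ] V} {B : Module.End ℚ_[ℓ] W}
    (g : V →ₗ[ℚ_[ℓ]] W) (h : ∀ x, g (A x) = B (g x)) (hg : Function.Injective g)
    (hB : Good ℓ p a B) : Good ℓ p a A := by
  obtain ⟨Q, h0, h1, h2⟩ := hB
  refine ⟨Q, h0, h1, LinearMap.ext fun x => hg ?_⟩
  rw [aeval_intertwine A B g h, h2]
  simp

lemma Good.exact {a : ℤ} {U V W : Type*} [AddCommGroup U] [Module ℚ_[ℓ] U]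
    [AddCommGroup V] [Module ℚ_[ℓ] V] [AddCommGroup W] [Module ℚ_[ℓ] W]
    {A : Module.End ℚ_[ℓ] U} {B : Module.End ℚ_[ℓ] V} {C : Module.End ℚ_[ℓ] W}
    (f : U →ₗ[ℚ_[ℓ]] V) (g : V →ₗ[ℚ_[ℓ]] W) (hf : ∀ x, f (A x) = B (f x))
    (hg : ∀ x, g (B x) = C (g x)) (hfg : ∀ y, g y = 0 → ∃ x, f x = y)
    (hA : Good ℓ p a A) (hC : Good ℓ p a C) : Good ℓ p a B := by
  obtain ⟨Q, h0, h1, h2⟩ := hA
  obtain ⟨R, k0, k1, k2⟩ := hC
  refine ⟨Q * R, mul_ne_zero h0 k0, fun r hr => ?_, LinearMap.ext fun y => ?_⟩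
  · rw [map_mul, mul_eq_zero] at hr
    exact hr.elim (h1 r) (k1 r)
  · rw [map_mul, Module.End.mul_apply]
    obtain ⟨x, hx⟩ := hfg (Polynomial.aeval B R y) (by
      rw [aeval_intertwine B C g hg, k2]; simp)
    rw [← hx, ← aeval_intertwine A B f hf, h2]
    simp

end good

section pure

variable {E : Env} {F : Type} [Field F] (P : GPt E F)

section push

lemma fst_z {T Y Z : Scheme.{0}} (a : T ⟶ Y) (i : Z ⟶ Y) [IsIso i] :
    pullback.fst a i ≫ a ≫ inv i = pullback.snd a i := by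
  rw [pullback.condition_assoc, IsIso.hom_inv_id, Category.comp_id]

lemma lift_h {T Y Z : Scheme.{0}} (a : T ⟶ Y) (i : Z ⟶ Y) [IsIso i] :
    𝟙 T ≫ a = (a ≫ inv i) ≫ i := by simp

lemma fst_lift {T Y Z : Scheme.{0}} (a : T ⟶ Y) (i : Z ⟶ Y) [IsIso i] :
    pullback.fst a i ≫ pullback.lift (𝟙 T) (a ≫ inv i) (lift_h a i) = 𝟙 _ := by
  refine pullback.hom_ext ?_ ?_
  · rw [Category.assoc, pullback.lift_fst, Category.comp_id, Category.id_comp]
  · rw [Category.assoc, pullback.lift_snd, fst_z, Category.id_comp]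

variable {Z : Scheme.{0}} (i : Z ⟶ Spec (.of F)) [IsIso i]

lemma we_inv : WeaklyEtale (P.z ≫ inv i) := by
  have := P.we
  infer_instance

/-- comparison of the inverse image of the point with the point of `Z` -/
def th1 : (pull i).obj P.pt ⟶ ptT (P.z ≫ inv i) (we_inv P i) where
  f := pullback.fst P.z i
  c := 1
  w := fst_z _ _
  h := IsTwF.comap _ _

/-- comparison of the inverse image of the point with the point of `Z` -/
def th2 : ptT (P.z ≫ inv i) (we_inv P i) ⟶ (pull i).obj P.pt where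
  f := pullback.lift (𝟙 _) (P.z ≫ inv i) (lift_h _ _)
  c := 1
  w := pullback.lift_snd _ _ _
  h := twf_lift (lift_h _ _) (IsTwF.id _)

lemma th12 : th1 P i ≫ th2 P i = 𝟙 _ :=
  hom_ext (fst_lift _ _) (fun _ => one_mul _)

lemma good_push (L : Sh E Z) {v a : ℤ} (hL : PP E v L) (hv : v ≤ a) {φ : E.G}
    (hφ : IsFrob E.p (E.ρ φ).inv) :
    Good E.ℓ E.p a (show Module.End ℚ_[E.ℓ] _ from
      rstL ((push E i).obj L) (P.gE φ)) := by
  have hz : (E.ρ φ).hom ≫ (P.z ≫ inv i) = P.z ≫ inv i := by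
    rw [← Category.assoc, P.inv]
  obtain ⟨Q, hQ, hQ2⟩ := hL _ (isPt_ptT P.cov (P.z ≫ inv i) (we_inv P i)) φ hφ 1 one_pos
    (ptEnd (P.z ≫ inv i) (we_inv P i) φ hz) (fun t => (pow_one φ).symm)
  rw [ann_iff] at hQ2
  refine ⟨Q, hQ.1, fun r hr => ⟨v, hv, ?_⟩, ?_⟩
  · have := hQ.2 r hr
    rwa [pow_one] at this
  · exact aeval_conj L (th1 P i) (th2 P i) (th12 P i)
      ((pull i).map (P.gE φ)) (ptEnd (P.z ≫ inv i) (we_inv P i) φ hz) (by
        refine hom_ext ?_ (fun t => ?_)
        · exact pullback.lift_fst _ _ _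
        · change 1 * φ = φ * 1
          rw [one_mul, mul_one]) _ hQ2

end push

lemma sec_zero_of_isEmpty {X : Scheme.{0}}
    (M : Sh E X) (U : Tw E X) [IsEmpty U.T] (x : M.val.obj (op U)) : x = 0 := by
  have h1 : (1 : (Rs E X).obj.obj (op U)) = 0 :=
    ULift.down_injective (ContinuousMap.ext fun t => isEmptyElim (show U.T from t))
  rw [← one_smul ((Rs E X).obj.obj (op U)) x, h1, zero_smul]

variable {P}

lemma Good.of_iso {a : ℤ} {M N : Sh E (Spec (.of F))} (e : M ≅ N) {φ : E.G}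
    (h : Good E.ℓ E.p a (show Module.End ℚ_[E.ℓ] _ from rstL N (P.gE φ))) :
    Good E.ℓ E.p a (show Module.End ℚ_[E.ℓ] _ from rstL M (P.gE φ)) := by
  refine Good.of_inj (secL e.hom _) (fun x => secL_rst e.hom _ x) (fun x y hxy => ?_) h
  exact secL_inj e.hom _ hxy

/-- Weights of the cohomology at the point. -/
lemma WLE.good {a : ℤ} {K : D E (Spec (.of F))} (hK : WLE E a K) {φ : E.G}
    (hφ : IsFrob E.p (E.ρ φ).inv) (n : ℤ) :
    Good E.ℓ E.p (a + n) (show Module.End ℚ_[E.ℓ] _ from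
      rstL ((DerivedCategory.homologyFunctor _ n).obj K) (P.gE φ)) := by
  induction hK with
  | of hK =>
    obtain ⟨Z, i, hi, L, M, j, -, hE, ⟨v, hP, hv⟩, ⟨e⟩⟩ := hK
    by_cases hn : n = j
    · subst hn
      refine Good.of_iso ((DerivedCategory.homologyFunctor _ n).mapIso e ≪≫ singleIso M n) ?_
      obtain ⟨m, hm, -⟩ := hE
      refine Good.of_inj (secL m _) (fun x => secL_rst m _ x) (secL_inj m _) ?_
      rcases isEmpty_or_nonempty Z with hZ | hZ
      · refine Good.zero _ fun x => ?_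
        have : IsEmpty ((pull i).obj P.pt).T :=
          ⟨fun t => isEmptyElim (((pull i).obj P.pt).π t)⟩
        exact sec_zero_of_isEmpty L ((pull i).obj P.pt) x
      · have := MP.isIso_of_immersion_field F Z i
        exact good_push P i L hP hv hφ
    · exact Good.zero _ fun x => P.sp_zero ((single_homology_zero M hn).of_iso
        ((DerivedCategory.homologyFunctor _ n).mapIso e)) x
  | zero hK =>
    exact Good.zero _ fun x => P.sp_zero ((DerivedCategory.homologyFunctor _ n).map_isZero hK) x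
  | iso e _ ih => exact Good.of_iso ((DerivedCategory.homologyFunctor _ n).mapIso e.symm) ih
  | ext T hT _ _ h1 h3 =>
    exact Good.exact (secL ((DerivedCategory.homologyFunctor _ n).map T.mor₁) _)
      (secL ((DerivedCategory.homologyFunctor _ n).map T.mor₂) _)
      (fun x => secL_rst _ _ x) (fun x => secL_rst _ _ x)
      (fun y hy => P.sp_exact _ (DerivedCategory.HomologySequence.exact₂ T hT n) y hy) h1 h3

end pure

end

end Pool.Agent.H72.MQ
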